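import Pool.Agent.H79.RD.Targets

/-!
# Modules IN, LB, CN of the board rdh
-/

namespace Pool.Agent.H60.RD

open Finset Pool.Agent.H79.RD

theorem pf_IN : T_IN := by
  intro V _ N b k g a a0 D L d φ Forb z0 hk hg hb ha0 hd
  have hu : ∀ i, (unr φ ∅ i).card = b := by
    intro i
    unfold unr
    simp
  have hA : Act φ g ∅ = (∅ : Finset (Fin N)) := by
    unfold Act
    rw [Finset.filter_eq_empty_iff]
    intro i _
    rw [hu]
    omega
  refine ⟨?_, ?_, ?_, ?_, ?_, ?_, ?_, ?_, ?_, ?_, ?_⟩
  · intro l hl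
    exact absurd hl (Finset.notMem_empty l)
  · intro l hl
    exact absurd hl (Finset.notMem_empty l)
  · rw [hA]
    intro σ hσ
    exact absurd (hσ ⟨0, hk⟩) (Finset.notMem_empty _)
  · intro q
    exact Nat.zero_le _
  · exact hA.symm
  · refine ⟨rfl, ?_, ?_, ?_, ?_⟩ <;> simp [prs]
  · intro u _
    rfl
  · exact Finset.Subset.refl _
  · rw [hA, Finset.card_empty]
    omega
  · intro i _
    rw [hu]
    exact hb
  · rw [Finset.sdiff_self, Finset.card_empty]
    omega

theorem pf_LB : T_LB := by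
  intro V _ N b g a a0 φ Rv St hinj hSt hun hRv
  set G := Act φ g Rv \ Act φ g St with hG
  have hGc : a - a0 ≤ G.card := by
    have h1 := Finset.le_card_sdiff (Act φ g St) (Act φ g Rv)
    rw [← hG] at h1
    omega
  set H : Fin N → Finset (Fin b) := fun i => unr φ St i \ unr φ Rv i with hH
  have hHc : ∀ i ∈ G, g ≤ (H i).card := by
    intro i hi
    rw [hG, Finset.mem_sdiff] at hi
    have h1 := hun i hi.2
    have h2 : (unr φ Rv i).card < g := by
      have := hi.1
      unfold Act at this
      exact (Finset.mem_filter.mp this).2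
    have h3 := Finset.le_card_sdiff (unr φ Rv i) (unr φ St i)
    show g ≤ (unr φ St i \ unr φ Rv i).card
    omega
  have hmap : (G.sigma H).card ≤ (Rv \ St).card := by
    refine Finset.card_le_card_of_injOn (fun p => φ p.1 p.2) ?_ ?_
    · rintro ⟨i, j⟩ hp
      rw [Finset.mem_coe, Finset.mem_sigma] at hp
      obtain ⟨-, h2⟩ := hp
      simp only [hH, unr, Finset.mem_sdiff, Finset.mem_filter, Finset.mem_univ, true_and,
        not_not] at h2
      rw [Finset.mem_coe, Finset.mem_sdiff]
      exact ⟨h2.2, h2.1⟩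
    · rintro ⟨i, j⟩ - ⟨i', j'⟩ - h
      obtain ⟨h1, h2⟩ := hinj i j i' j' h
      subst h1
      subst h2
      rfl
  rw [Finset.card_sigma] at hmap
  refine le_trans ?_ hmap
  calc g * (a - a0) ≤ g * G.card := Nat.mul_le_mul_left _ hGc
    _ = ∑ i ∈ G, g := by rw [Finset.sum_const, smul_eq_mul, mul_comm]
    _ ≤ _ := Finset.sum_le_sum hHc

/-- the number of assignments with given values on `Q` -/
lemma card_cyl {V : Type} [Fintype V] [DecidableEq V] (Q : Finset V) (s : V → Bool) :
    ((Finset.univ : Finset (V → Bool)).filter (fun z => ∀ u ∈ Q, z u = s u)).card * 2 ^ Q.card =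
      2 ^ Fintype.card V := by
  have h1 : (Finset.univ : Finset (V → Bool)).filter (fun z => ∀ u ∈ Q, z u = s u) =
      Fintype.piFinset (fun u => if u ∈ Q then ({s u} : Finset Bool) else Finset.univ) := by
    ext z
    rw [Finset.mem_filter, Fintype.mem_piFinset]
    constructor
    · rintro ⟨-, h⟩ u
      by_cases hu : u ∈ Q
      · rw [if_pos hu, Finset.mem_singleton]
        exact h u hu
      · rw [if_neg hu]
        exact Finset.mem_univ _
    · intro h
      refine ⟨Finset.mem_univ _, fun u hu => ?_⟩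
      have := h u
      rw [if_pos hu, Finset.mem_singleton] at this
      exact this
  rw [h1, Fintype.card_piFinset]
  have h2 : 2 ^ Q.card = ∏ u : V, (if u ∈ Q then 2 else 1) := by
    rw [Finset.prod_ite_mem, Finset.univ_inter, Finset.prod_const]
  rw [h2, ← Finset.prod_mul_distrib]
  have h3 : ∀ u : V, (if u ∈ Q then ({s u} : Finset Bool) else Finset.univ).card *
      (if u ∈ Q then 2 else 1) = 2 := by
    intro u
    by_cases hu : u ∈ Q
    · rw [if_pos hu, if_pos hu, Finset.card_singleton]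
    · rw [if_neg hu, if_neg hu]
      rfl
  rw [Finset.prod_congr rfl fun u _ => h3 u, Finset.prod_const]
  rfl

theorem pf_CN : T_CN := by
  classical
  intro V _ _ N b g a0 R S φ C hinj hb hz
  have ht : ∀ v : Fin S, ∃ t : V → Bool, ∀ u ∈ vars (C v), (u, t u) ∈ C v := by
    intro v
    have : ∀ u, ∃ s : Bool, u ∈ vars (C v) → (u, s) ∈ C v := by
      intro u
      by_cases hu : u ∈ vars (C v)
      · unfold vars at hu
        obtain ⟨l, hl, rfl⟩ := Finset.mem_image.mp hu
        exact ⟨l.2, fun _ => hl⟩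
      · exact ⟨true, fun h => absurd h hu⟩
    choose t ht using this
    exact ⟨t, ht⟩
  choose t ht using ht
  set Q : Fin S → Finset (Fin N) → Finset V := fun v J =>
    (vars (C v)).filter (fun u => ∀ i ∈ J, ∀ j, u ≠ φ i j) with hQ
  set E : Fin S → Finset (Fin N) → Finset (V → Bool) := fun v J =>
    Finset.univ.filter (fun z => ∀ u ∈ Q v J, z u = !(t v u)) with hE
  -- (1)
  have h1 : ∀ v, Wide φ g a0 (C v) → a0 * (b - 2 * g) ≤ (vars (C v)).card := by
    intro v hv
    unfold Wide at hv
    set G := (Finset.univ : Finset (Fin N)).filter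
      (fun i => (unr φ (vars (C v)) i).card < 2 * g) with hG
    set H : Fin N → Finset (Fin b) := fun i =>
      Finset.univ.filter (fun j => φ i j ∈ vars (C v)) with hH
    have hHc : ∀ i ∈ G, b - 2 * g ≤ (H i).card := by
      intro i hi
      have h2 := (Finset.mem_filter.mp hi).2
      have h3 : (H i).card + (unr φ (vars (C v)) i).card = b := by
        have := Finset.card_filter_add_card_filter_not (s := (Finset.univ : Finset (Fin b)))
          (fun j => φ i j ∈ vars (C v))
        rw [Finset.card_univ, Fintype.card_fin] at this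
        exact this
      omega
    have hmap : (G.sigma H).card ≤ (vars (C v)).card := by
      refine Finset.card_le_card_of_injOn (fun p => φ p.1 p.2) ?_ ?_
      · rintro ⟨i, j⟩ hp
        rw [Finset.mem_coe, Finset.mem_sigma] at hp
        exact (Finset.mem_filter.mp hp.2).2
      · rintro ⟨i, j⟩ - ⟨i', j'⟩ - h
        obtain ⟨h1, h2⟩ := hinj i j i' j' h
        subst h1
        subst h2
        rfl
    rw [Finset.card_sigma] at hmap
    refine le_trans ?_ hmap
    calc a0 * (b - 2 * g) ≤ G.card * (b - 2 * g) := Nat.mul_le_mul_right _ hv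
      _ = ∑ i ∈ G, (b - 2 * g) := by rw [Finset.sum_const, smul_eq_mul]
      _ ≤ _ := Finset.sum_le_sum hHc
  -- (2)
  have h2 : ∀ v J, J.card ≤ R → (vars (C v)).card ≤ (Q v J).card + b * R := by
    intro v J hJ
    have h3 : vars (C v) ⊆ Q v J ∪ (J ×ˢ (Finset.univ : Finset (Fin b))).image
        (fun p => φ p.1 p.2) := by
      intro u hu
      rw [Finset.mem_union]
      by_cases h : ∀ i ∈ J, ∀ j, u ≠ φ i j
      · left
        exact Finset.mem_filter.mpr ⟨hu, h⟩
      · right
        push Not at h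
        obtain ⟨i, hi, j, hj⟩ := h
        rw [Finset.mem_image]
        exact ⟨(i, j), Finset.mem_product.mpr ⟨hi, Finset.mem_univ _⟩, hj.symm⟩
    refine (Finset.card_le_card h3).trans ((Finset.card_union_le _ _).trans ?_)
    have h4 : ((J ×ˢ (Finset.univ : Finset (Fin b))).image (fun p => φ p.1 p.2)).card ≤ b * R := by
      refine Finset.card_image_le.trans ?_
      rw [Finset.card_product, Finset.card_univ, Fintype.card_fin, mul_comm]
      exact Nat.mul_le_mul_left _ hJ
    omega
  -- (3)
  set P : Finset (Fin S × Finset (Fin N)) :=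
    Finset.univ.filter (fun p => Wide φ g a0 (C p.1) ∧ p.2.card ≤ R) with hP
  have hcov : (Finset.univ : Finset (V → Bool)) ⊆ P.biUnion (fun p => E p.1 p.2) := by
    intro z0 _
    obtain ⟨v, z, J, hf, hw, hJ, hag⟩ := hz z0
    rw [Finset.mem_biUnion]
    refine ⟨(v, J), Finset.mem_filter.mpr ⟨Finset.mem_univ _, hw, hJ⟩, ?_⟩
    refine Finset.mem_filter.mpr ⟨Finset.mem_univ _, fun u hu => ?_⟩
    obtain ⟨hu1, hu2⟩ := Finset.mem_filter.mp hu
    rw [← hag u hu2]
    have := hf _ (ht v u hu1)
    exact Bool.eq_not_of_ne this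
  have hP2 : P.card ≤ S * 2 ^ N := by
    refine (Finset.card_le_univ _).trans ?_
    rw [Fintype.card_prod, Fintype.card_fin, Fintype.card_finset, Fintype.card_fin]
  have hbound : ∀ p ∈ P, (E p.1 p.2).card * 2 ^ (a0 * (b - 2 * g)) ≤
      2 ^ Fintype.card V * 2 ^ (b * R) := by
    rintro ⟨v, J⟩ hp
    obtain ⟨-, hw, hJ⟩ := Finset.mem_filter.mp hp
    have h3 : a0 * (b - 2 * g) ≤ (Q v J).card + b * R := (h1 v hw).trans (h2 v J hJ)
    calc (E v J).card * 2 ^ (a0 * (b - 2 * g)) ≤ (E v J).card * 2 ^ ((Q v J).card + b * R) :=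
          Nat.mul_le_mul_left _ (Nat.pow_le_pow_right (by norm_num) h3)
      _ = (E v J).card * 2 ^ (Q v J).card * 2 ^ (b * R) := by rw [pow_add]; ring
      _ = _ := by rw [hE]; simp only []; rw [card_cyl (Q v J) (fun u => !(t v u))]
  have hfin : 2 ^ Fintype.card V * 2 ^ (a0 * (b - 2 * g)) ≤
      2 ^ Fintype.card V * (S * 2 ^ (N + b * R)) := by
    calc 2 ^ Fintype.card V * 2 ^ (a0 * (b - 2 * g))
        = (Finset.univ : Finset (V → Bool)).card * 2 ^ (a0 * (b - 2 * g)) := by
          rw [Finset.card_univ, Fintype.card_fun, Fintype.card_bool]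
      _ ≤ (∑ p ∈ P, (E p.1 p.2).card) * 2 ^ (a0 * (b - 2 * g)) :=
          Nat.mul_le_mul_right _ ((Finset.card_le_card hcov).trans Finset.card_biUnion_le)
      _ = ∑ p ∈ P, (E p.1 p.2).card * 2 ^ (a0 * (b - 2 * g)) := by rw [Finset.sum_mul]
      _ ≤ ∑ p ∈ P, 2 ^ Fintype.card V * 2 ^ (b * R) := Finset.sum_le_sum hbound
      _ = P.card * (2 ^ Fintype.card V * 2 ^ (b * R)) := by rw [Finset.sum_const, smul_eq_mul]
      _ ≤ (S * 2 ^ N) * (2 ^ Fintype.card V * 2 ^ (b * R)) := Nat.mul_le_mul_right _ hP2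
      _ = _ := by rw [pow_add]; ring
  exact Nat.le_of_mul_le_mul_left hfin (by positivity)

end Pool.Agent.H60.RD
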